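import Pool.Agent.P8H30.LG.Stm

/-! Project LG of helper30, package GEN: power series with coefficients of polynomial growth. -/

set_option autoImplicit false

namespace Pool.Agent.P8H59.LG

open Pool.Agent.P8H30.LG

theorem summ (ρ : ℝ) (h0 : 0 < ρ) (h1 : ρ < 1) (j : ℕ) :
    Summable fun k : ℕ => ((k : ℝ) + 1) ^ j * ρ ^ (k + 1) / ρ ^ 2 := by
  have h := summable_pow_mul_geometric_of_norm_lt_one (R := ℝ) j (r := ρ)
    (by rw [Real.norm_eq_abs, abs_of_pos h0]; exact h1)
  have h2 := (summable_nat_add_iff 1).2 h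
  refine (h2.div_const (ρ ^ 2)).congr fun k => ?_
  push_cast
  rfl

theorem gen : S_GEN := by
  intro w hw
  refine ⟨fun x hx0 hx1 => ?_, ?_⟩
  · obtain ⟨ρ, hρ1, hρ2⟩ := exists_between hx1
    have hρ0 : 0 < ρ := hx0.trans hρ1
    have hs := summ ρ hρ0 hρ2 4
    have hsum : ∀ y : ℝ, 0 < y → y < ρ → Summable (fun k : ℕ => w k * y ^ k) := by
      intro y hy0 hy1
      refine Summable.of_norm_bounded hs fun k => ?_
      rw [Real.norm_eq_abs, abs_mul, abs_of_pos (pow_pos hy0 k), le_div_iff₀ (by positivity)]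
      have h1 : |w k| * y ^ k ≤ ((k : ℝ) + 1) ^ 3 * ρ ^ k :=
        mul_le_mul (hw k) (pow_le_pow_left₀ hy0.le hy1.le k) (by positivity) (by positivity)
      have h2 : ((k : ℝ) + 1) ^ 3 ≤ ((k : ℝ) + 1) ^ 4 :=
        pow_le_pow_right₀ (by have : (0 : ℝ) ≤ k := Nat.cast_nonneg k; linarith) (by norm_num)
      have h3 : ρ ^ 2 ≤ ρ := by nlinarith
      calc |w k| * y ^ k * ρ ^ 2 ≤ (((k : ℝ) + 1) ^ 4 * ρ ^ k) * ρ := by
            refine mul_le_mul (h1.trans ?_) h3 (by positivity) (by positivity)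
            exact mul_le_mul_of_nonneg_right h2 (by positivity)
        _ = ((k : ℝ) + 1) ^ 4 * ρ ^ (k + 1) := by rw [pow_succ]; ring
    refine ⟨hsum x hx0 hρ1, ?_⟩
    have hd := hasDerivAt_tsum_of_isPreconnected (𝕜 := ℝ) (F := ℝ) (t := Set.Ioo 0 ρ)
      (g := fun (k : ℕ) (y : ℝ) => w k * y ^ k) (g' := fun (k : ℕ) (y : ℝ) => w k * (k * y ^ (k - 1)))
      (y₀ := x) (y := x) hs isOpen_Ioo isPreconnected_Ioo
      (fun k y _ => (hasDerivAt_pow k y).const_mul (w k)) (fun k y hy => ?_) ⟨hx0, hρ1⟩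
      (hsum x hx0 hρ1) ⟨hx0, hρ1⟩
    · have he : (∑' k : ℕ, (k : ℝ) * w k * x ^ k) / x = ∑' k : ℕ, w k * (k * x ^ (k - 1)) := by
        rw [← tsum_div_const]
        refine tsum_congr fun k => ?_
        cases k with
        | zero => simp
        | succ k =>
          rw [Nat.add_sub_cancel, pow_succ]
          field_simp
      rw [he]
      exact hd
    · rw [Real.norm_eq_abs, abs_mul]
      cases k with
      | zero =>
        simp only [Nat.cast_zero, zero_mul, abs_zero, mul_zero]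
        positivity
      | succ k =>
        rw [Nat.add_sub_cancel, le_div_iff₀ (by positivity),
          abs_of_nonneg (mul_nonneg (Nat.cast_nonneg _) (pow_nonneg hy.1.le _))]
        have h1 : ((k + 1 : ℕ) : ℝ) * y ^ k ≤ (((k + 1 : ℕ) : ℝ) + 1) * ρ ^ k :=
          mul_le_mul (by linarith) (pow_le_pow_left₀ hy.1.le hy.2.le k) (pow_nonneg hy.1.le k)
            (by positivity)
        calc |w (k + 1)| * (((k + 1 : ℕ) : ℝ) * y ^ k) * ρ ^ 2
            ≤ ((((k + 1 : ℕ) : ℝ) + 1) ^ 3 * ((((k + 1 : ℕ) : ℝ) + 1) * ρ ^ k)) * ρ ^ 2 := by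
              refine mul_le_mul_of_nonneg_right ?_ (by positivity)
              exact mul_le_mul (hw (k + 1)) h1
                (mul_nonneg (Nat.cast_nonneg _) (pow_nonneg hy.1.le _)) (by positivity)
          _ = (((k + 1 : ℕ) : ℝ) + 1) ^ 4 * ρ ^ (k + 1 + 1) := by ring
  · have h := summable_pow_mul_geometric_of_norm_lt_one (R := ℝ) 3 (r := 1 / 2)
      (by rw [Real.norm_eq_abs, abs_of_pos (by norm_num)]; norm_num)
    have h2 := (summable_nat_add_iff 2).2 h
    have h3 : Summable fun k : ℕ => ((k : ℝ) + 2) ^ 3 * (1 / 2) ^ k := by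
      refine (h2.mul_left 4).congr fun k => ?_
      push_cast
      ring
    refine ⟨∑' k : ℕ, ((k : ℝ) + 2) ^ 3 * (1 / 2) ^ k, fun x hx0 hx2 => ?_⟩
    have hb : ∀ k : ℕ, ‖w (k + 1) * x ^ (k + 1)‖ ≤ (((k : ℝ) + 2) ^ 3 * (1 / 2) ^ k) * x := by
      intro k
      have h4 := hw (k + 1)
      rw [Real.norm_eq_abs, abs_mul, abs_of_pos (pow_pos hx0 _)]
      push_cast at h4
      have h5 : ((k : ℝ) + 1 + 1) ^ 3 = ((k : ℝ) + 2) ^ 3 := by ring
      rw [h5] at h4
      calc |w (k + 1)| * x ^ (k + 1) ≤ ((k : ℝ) + 2) ^ 3 * ((1 / 2) ^ k * x) := by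
            refine mul_le_mul h4 ?_ (by positivity) (by positivity)
            rw [pow_succ]
            exact mul_le_mul_of_nonneg_right (pow_le_pow_left₀ hx0.le hx2 k) hx0.le
        _ = _ := by ring
    have hs1 : Summable fun k : ℕ => w (k + 1) * x ^ (k + 1) :=
      Summable.of_norm_bounded (h3.mul_right x) hb
    have hs0 : Summable fun k : ℕ => w k * x ^ k := (summable_nat_add_iff 1).1 hs1
    rw [hs0.tsum_eq_zero_add, pow_zero, mul_one, add_sub_cancel_left]
    have h6 := tsum_of_norm_bounded (h3.mul_right x).hasSum hb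
    rwa [Real.norm_eq_abs, tsum_mul_right] at h6

end Pool.Agent.P8H59.LG
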